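import Mathlib

/-!
# Hermitian metrics on compact locally homogeneous complex manifolds: definitions

Let `G` be a Lie group with Lie algebra `L`, `K` a compact connected subgroup with Lie algebra `k`
and `Γ` a discrete subgroup such that `G / Γ` is compact. The vector fields `ξ_v`, `v ∈ L`, with
`ξ_v (x) = d/dt (exp (-t v) x)` trivialise the tangent bundle of `G / Γ` and `[ξ_v, ξ_w] = ξ_[v, w]`.
So a form on `M = G / Γ` is a function of a point of `M` and of a tuple of elements of `L`.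

The tensors on the double coset space `K \ G / Γ` are the basic tensors on `G / Γ`: those which vanish
as soon as one argument belongs to `k` and whose Lie derivatives along `ξ_c`, `c ∈ k`, vanish.
-/

open Module Manifold ContDiff MeasureTheory

namespace Pool.Agent.Helper14.LHS

section Algebra

variable {L : Type*} [LieRing L]

/-- The tuple obtained from `x` by deleting the `i`-th entry and then the `j`-th entry of the
remaining tuple. -/
def del {k : ℕ} (x : Fin (k + 2) → L) (i : Fin (k + 2)) (j : Fin (k + 1)) : Fin k → L :=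
  fun l => x (i.succAbove (j.succAbove l))

/-- The Chevalley–Eilenberg differential of a `k`-form, `k ≥ 1`:
`(d η)(x_0, …, x_k) = ∑_{i < j} (-1)^(i+j) η([x_i, x_j], x_0, …, x̂_i, …, x̂_j, …, x_k)`.  (The
second index is written `j = j' + 1` with `i ≤ j'`.) -/
noncomputable def ceD {k : ℕ} (η : (Fin (k + 1) → L) → ℝ) (x : Fin (k + 2) → L) : ℝ :=
  ∑ i : Fin (k + 2), ∑ j : Fin (k + 1), if i.val ≤ j.val then
    (-1) ^ (i.val + j.val + 1) * η (Fin.cons ⁅x i, x (i.succAbove j)⁆ (del x i j)) else 0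

/-- The wedge product of a `2`-form `β` and a `k`-form `η`:
`(β ∧ η)(x_0, …, x_(k+1)) = ∑_{i < j} (-1)^(i+j-1) β(x_i, x_j) η(x_0, …, x̂_i, …, x̂_j, …)`. -/
noncomputable def wedge {k : ℕ} (β : L → L → ℝ) (η : (Fin k → L) → ℝ) (x : Fin (k + 2) → L) : ℝ :=
  ∑ i : Fin (k + 2), ∑ j : Fin (k + 1), if i.val ≤ j.val then
    (-1) ^ (i.val + j.val) * (β (x i) (x (i.succAbove j)) * η (del x i j)) else 0

/-- The wedge powers `β ^ m` of a `2`-form. -/
noncomputable def wedgePow (β : L → L → ℝ) (m : ℕ) : (Fin (2 * m) → L) → ℝ :=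
  Nat.rec (motive := fun m => (Fin (2 * m) → L) → ℝ) (fun _ => 1)
    (fun m η => wedge (k := 2 * m) β η) m

variable [LieAlgebra ℝ L]

/-- The fundamental `2`-form `ω(x, y) = g(J x, y)`. -/
def omega (J : L →ₗ[ℝ] L) (g : LinearMap.BilinForm ℝ L) (x y : L) : ℝ := g (J x) y

/-- The Lie algebra is unimodular: every `ad x` has trace zero. -/
def IsUnimodular (L : Type*) [LieRing L] [LieAlgebra ℝ L] : Prop :=
  ∀ x : L, LinearMap.trace ℝ L (LieAlgebra.ad ℝ L x) = 0

/-- `k` has a complement in `L` which is invariant under `ad k`.  (The Lie algebra of a compact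
subgroup has one.) -/
def IsReductive (k : LieSubalgebra ℝ L) : Prop :=
  ∃ m : Submodule ℝ L, IsCompl m k.toSubmodule ∧ ∀ c ∈ k, ∀ x ∈ m, ⁅c, x⁆ ∈ m

/-- `J`, an endomorphism of the Lie algebra `L` of `G`, induces an integrable invariant complex
structure on the homogeneous space of `G` with isotropy algebra `k` (whose tangent space is
`L / k`): it preserves `k`, squares to `-1` modulo `k`, commutes with `ad k` modulo `k`, and its
Nijenhuis tensor vanishes modulo `k`. -/
def IsInvariantComplexStructure (k : LieSubalgebra ℝ L) (J : L →ₗ[ℝ] L) : Prop :=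
  (∀ c ∈ k, J c ∈ k) ∧ (∀ x, J (J x) + x ∈ k) ∧ (∀ c ∈ k, ∀ x, ⁅c, J x⁆ - J ⁅c, x⁆ ∈ k) ∧
    ∀ x y, ⁅J x, J y⁆ - ⁅x, y⁆ - J (⁅J x, y⁆ + ⁅x, J y⁆) ∈ k

end Algebra

section Forms

/-! Here `M` is the space `G / Γ`, `Sm f` means that the function `f` on `M` is smooth, and `D v f` is
the derivative `ξ_v f`. -/

variable {L M : Type*} [LieRing L] [LieAlgebra ℝ L] (Sm : (M → ℝ) → Prop)
  (D : L → (M → ℝ) → M → ℝ)

/-- The exterior derivative of a `k`-form `W` on `M`, `k ≥ 1`:
`dW (v_0, …, v_k) = ∑ i, (-1)^i ξ_{v_i} (W (v_0, …, v̂_i, …, v_k)) +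
∑_{i < j} (-1)^(i+j) W ([v_i, v_j], v_0, …, v̂_i, …, v̂_j, …, v_k)`. -/
noncomputable def extD {k : ℕ} (W : M → (Fin (k + 1) → L) → ℝ) (x : M) (v : Fin (k + 2) → L) : ℝ :=
  ∑ i : Fin (k + 2), (-1) ^ i.val * D (v i) (fun y => W y fun l => v (i.succAbove l)) x +
    ceD (W x) v

/-- The fundamental form of a metric on `M`. -/
noncomputable def fund (J : L →ₗ[ℝ] L) (g : M → LinearMap.BilinForm ℝ L) (x : M)
    (v : Fin 2 → L) : ℝ := omega J (g x) (v 0) (v 1)

/-- `dω = 0`. -/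
def Kahler (J : L →ₗ[ℝ] L) (g : M → LinearMap.BilinForm ℝ L) : Prop :=
  ∀ x v, extD D (k := 1) (fund J g) x v = 0

/-- `d dᶜ ω = 0`, where `dᶜ ω = ± dω(J ·, J ·, J ·)`. -/
def Pluriclosed (J : L →ₗ[ℝ] L) (g : M → LinearMap.BilinForm ℝ L) : Prop :=
  ∀ x v, extD D (k := 2) (fun y w => extD D (k := 1) (fund J g) y fun i => J (w i)) x v = 0

/-- A (smooth) Hermitian metric on `K \ G / Γ`, as a basic tensor on `M = G / Γ`: a smooth field of
symmetric bilinear forms on `L`, with kernel `k`, positive modulo `k`, compatible with `J`, and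
with vanishing Lie derivative along `ξ_c`, `c ∈ k`. -/
def IsBasicMetric (k : LieSubalgebra ℝ L) (J : L →ₗ[ℝ] L) (g : M → LinearMap.BilinForm ℝ L) :
    Prop :=
  (∀ v w, Sm fun x => g x v w) ∧ (∀ x v w, g x v w = g x w v) ∧
  (∀ x, ∀ c ∈ k, ∀ v, g x c v = 0) ∧ (∀ x v, v ∉ k → 0 < g x v v) ∧
  (∀ x v w, g x (J v) (J w) = g x v w) ∧
  ∀ c ∈ k, ∀ x v w, D c (fun y => g y v w) x = g x ⁅c, v⁆ w + g x v ⁅c, w⁆

/-- `d (ω ^ (n - 1)) = 0`, where `2 n = dim L - dim k` is the dimension of `K \ G / Γ` (an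
empty condition if `n ≤ 1`). -/
def BasicBalanced (k : LieSubalgebra ℝ L) (J : L →ₗ[ℝ] L) (g : M → LinearMap.BilinForm ℝ L) :
    Prop :=
  ∀ m : ℕ, finrank ℝ L = finrank ℝ k + 2 * (m + 2) →
    ∀ x v, extD D (k := 2 * m + 1) (fun y => wedgePow (omega J (g y)) (m + 1)) x v = 0

/-- There is a locally homogeneous Kähler metric `g₃` (a constant function on `M`), and its
fundamental form is the sum of the average of the fundamental form of `g₂` and of the `(1,1)`-part of
the differential of an invariant basic `1`-form (`-α`). -/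
def HasKahler [MeasurableSpace M] (μ : Measure M) (k : LieSubalgebra ℝ L) (J : L →ₗ[ℝ] L)
    (g₂ : M → LinearMap.BilinForm ℝ L) : Prop :=
  ∃ g₃ : LinearMap.BilinForm ℝ L,
    IsBasicMetric Sm D k J (fun _ : M => g₃) ∧ Kahler D J (fun _ : M => g₃) ∧
    ∃ α : Dual ℝ L, (∀ c ∈ k, α c = 0) ∧ (∀ c ∈ k, ∀ v, α ⁅c, v⁆ = 0) ∧
      ∀ v w, omega J g₃ v w =
        (∫ x, omega J (g₂ x) v w ∂μ) + (1 / 2) * (α ⁅v, w⁆ + α ⁅J v, J w⁆)

end Forms

section Group

variable {E : Type*} [NormedAddCommGroup E] [NormedSpace ℝ E]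
variable {G : Type*} [TopologicalSpace G] [ChartedSpace E G] [Group G] {Γ : Subgroup G}

/-- The Lie algebra of `G` (the tangent space at `1`, with the bracket of left-invariant vector
fields). -/
abbrev LieAlg (E G : Type*) [NormedAddCommGroup E] [NormedSpace ℝ E] [TopologicalSpace G]
    [ChartedSpace E G] [Group G] : Type _ := GroupLieAlgebra 𝓘(ℝ, E) G

instance : ENat.LEInfty (minSmoothness ℝ 3) :=
  ⟨by rw [minSmoothness_of_isRCLikeNormedField]; exact ENat.LEInfty.out⟩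

variable (E) in
/-- A real function on `G / Γ` is smooth (that is, its pullback to `G` is smooth). -/
def Smooth (f : G ⧸ Γ → ℝ) : Prop := ContMDiff 𝓘(ℝ, E) 𝓘(ℝ, ℝ) ∞ fun g : G => f g

/-- The derivative `ξ_v f` of a function on `G / Γ`: the derivative at `g = 1` in the direction `v` of
`g ↦ f (g⁻¹ x)`. -/
noncomputable def deriv (v : LieAlg E G) (f : G ⧸ Γ → ℝ) (x : G ⧸ Γ) : ℝ :=
  mfderiv 𝓘(ℝ, E) 𝓘(ℝ, ℝ) (fun g : G => f (g⁻¹ • x)) 1 v

end Group

end Pool.Agent.Helper14.LHS
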