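import Pool.Agent.Helper14.LHS.Defs
import Pool.Agent.Helper8.KV.LMain

/-! The theorem `exists_kahler_basic` (Helper8), with the definitions of `Defs`. -/

open Module Manifold ContDiff MeasureTheory

namespace Pool.Agent.Helper14.LHS

open Pool.Agent.Helper77 Pool.Agent.Helper8

theorem wedgePow_eq {L : Type*} [LieRing L] [LieAlgebra ℝ L] (β : L → L → ℝ) (m : ℕ) :
    wedgePow β m = LieForms.wedgePow β m := by
  induction m with
  | zero => rfl
  | succ m ih =>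
    change wedge β (wedgePow β m) = LieForms.wedge β (LieForms.wedgePow β m)
    rw [ih]
    rfl

theorem structure_iff {L : Type*} [LieRing L] [LieAlgebra ℝ L] {k : LieSubalgebra ℝ L}
    {J : L →ₗ[ℝ] L} : IsInvariantComplexStructure k J ↔ KV.IsInvariantComplexStructure k J :=
  ⟨fun h => ⟨h.1, h.2.1, h.2.2.1, h.2.2.2⟩, fun h => ⟨h.map_mem, h.sq, h.invariant, h.integrable⟩⟩

variable {E : Type*} [NormedAddCommGroup E] [NormedSpace ℝ E] [FiniteDimensional ℝ E]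
variable {G : Type*} [TopologicalSpace G] [ChartedSpace E G] [Group G] [LieGroup 𝓘(ℝ, E) ∞ G]
variable {Γ : Subgroup G} {k : LieSubalgebra ℝ (LieAlg E G)} {J : LieAlg E G →ₗ[ℝ] LieAlg E G}
  {g : G ⧸ Γ → LinearMap.BilinForm ℝ (LieAlg E G)}

theorem metric_iff : IsBasicMetric (Smooth E) deriv k J g ↔ KV.IsBasicMetric k J g :=
  ⟨fun h => ⟨h.1, h.2.1, h.2.2.1, h.2.2.2.1, h.2.2.2.2.1, h.2.2.2.2.2⟩,
    fun h => ⟨h.smooth, h.symm, h.kernel, h.pos, h.hermitian, h.invariant⟩⟩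

theorem balanced_iff : BasicBalanced deriv k J g ↔ KV.BasicBalanced k J g := by
  unfold BasicBalanced
  simp only [wedgePow_eq]
  exact Iff.rfl

theorem pluriclosed_iff : Pluriclosed deriv J g ↔ LH.Pluriclosed J g := Iff.rfl

theorem kahler_iff : Kahler deriv J g ↔ LH.Kahler J g := Iff.rfl

theorem main (Γ : Subgroup G) [DiscreteTopology Γ] [CompactSpace (G ⧸ Γ)]
    [MeasurableSpace (G ⧸ Γ)] [BorelSpace (G ⧸ Γ)] (μ : Measure (G ⧸ Γ))
    [IsProbabilityMeasure μ] [SMulInvariantMeasure G (G ⧸ Γ) μ]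
    (hL : IsUnimodular (LieAlg E G)) (k : LieSubalgebra ℝ (LieAlg E G))
    (hk : IsReductive k) (J : LieAlg E G →ₗ[ℝ] LieAlg E G)
    (hJ : IsInvariantComplexStructure k J)
    (g₁ g₂ : G ⧸ Γ → LinearMap.BilinForm ℝ (LieAlg E G))
    (h₁ : IsBasicMetric (Smooth E) deriv k J g₁) (hb : BasicBalanced deriv k J g₁)
    (h₂ : IsBasicMetric (Smooth E) deriv k J g₂) (hp : Pluriclosed deriv J g₂) :
    HasKahler (Smooth E) deriv μ k J g₂ := by
  obtain ⟨g₃, h3, h4, α, h5, h6, h7⟩ := KV.exists_kahler_basic μ hL hk (structure_iff.1 hJ)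
    (metric_iff.1 h₁) (balanced_iff.1 hb) (metric_iff.1 h₂) (pluriclosed_iff.1 hp)
  exact ⟨g₃, metric_iff.2 h3, kahler_iff.2 h4, α, h5, h6, h7⟩

end Pool.Agent.Helper14.LHS
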